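import Pool.Agent.X249.MC.Defs

/-!
# Matching Cut on graphs without the spider is in NP
-/

set_option autoImplicit false

namespace Pool.Agent.X249.MC

open Pool.Agent.NPC Pool.Agent.NPC.H634R2

theorem isGraph_iff {V : List ℕ} {E : List (ℕ × ℕ)} : IsGraph V E ↔ V.Nodup ∧
    (∀ e ∈ E, e.1 ∈ V ∧ e.2 ∈ V ∧ e.1 ≠ e.2) ∧ E.Nodup ∧ ∀ e ∈ E, (e.2, e.1) ∉ E := by
  unfold IsGraph
  constructor
  · rintro ⟨h1, h2, h3⟩
    refine ⟨h1, h2, h3.of_map, ?_⟩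
    intro e he he'
    have h4 : e = (e.2, e.1) := List.inj_on_of_nodup_map h3 he he' (by
      rw [Sym2.eq_iff]
      exact Or.inr ⟨rfl, rfl⟩)
    exact (h2 e he).2.2 (congrArg Prod.fst h4)
  · rintro ⟨h1, h2, h3, h4⟩
    refine ⟨h1, h2, h3.map_on ?_⟩
    intro a ha b hb hab
    rcases Sym2.eq_iff.1 hab with ⟨h5, h6⟩ | ⟨h5, h6⟩
    · exact Prod.ext h5 h6
    · exfalso
      refine h4 b hb ?_
      have : a = (b.2, b.1) := Prod.ext h5 h6
      rwa [this] at ha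

/-- Both orientations of the edges. -/
def dbl (E : List (ℕ × ℕ)) : List (ℕ × ℕ) := E ++ E.map (fun e : ℕ × ℕ => (e.2, e.1))

theorem mem_dbl {E : List (ℕ × ℕ)} {u v : ℕ} : (u, v) ∈ dbl E ↔ Adj E u v := by
  unfold dbl Adj
  rw [List.mem_append, List.mem_map]
  constructor
  · rintro (h | ⟨e, h, he⟩)
    · exact Or.inl h
    · simp only [Prod.mk.injEq] at he
      obtain ⟨rfl, rfl⟩ := he
      exact Or.inr h
  · rintro (h | h)
    · exact Or.inl h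
    · exact Or.inr ⟨_, h, rfl⟩

/-- The paths with two edges. -/
def paths (E : List (ℕ × ℕ)) : List ((ℕ × ℕ) × (ℕ × ℕ)) := dbl E ×ˢ dbl E

/-- The four paths form a spider. -/
def Ok (p q r s : (ℕ × ℕ) × (ℕ × ℕ)) : Prop :=
  (p.1.2 = p.2.1 ∧ q.1.2 = q.2.1 ∧ r.1.2 = r.2.1 ∧ s.1.2 = s.2.1) ∧
    (p.1.1 = q.1.1 ∧ p.1.1 = r.1.1 ∧ p.1.1 = s.1.1) ∧
    [p.1.1, p.1.2, q.1.2, r.1.2, s.1.2, p.2.2, q.2.2, r.2.2, s.2.2].Nodup

/-- The spider, with bounded quantifiers. -/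
def SpiderB (E : List (ℕ × ℕ)) : Prop :=
  ∃ p ∈ paths E, ∃ q ∈ paths E, ∃ r ∈ paths E, ∃ s ∈ paths E, Ok p q r s

theorem mem_paths {E : List (ℕ × ℕ)} {p : (ℕ × ℕ) × (ℕ × ℕ)} :
    p ∈ paths E ↔ Adj E p.1.1 p.1.2 ∧ Adj E p.2.1 p.2.2 := by
  unfold paths
  rw [← mem_dbl, ← mem_dbl]
  obtain ⟨a, b⟩ := p
  exact List.mem_product

theorem spider_iff (E : List (ℕ × ℕ)) : Spider E ↔ SpiderB E := by
  constructor
  · rintro ⟨c, a, b, ha, hb, hab, hac, hbc, hadj⟩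
    refine ⟨((c, a 0), (a 0, b 0)), mem_paths.2 (hadj 0), ((c, a 1), (a 1, b 1)),
      mem_paths.2 (hadj 1), ((c, a 2), (a 2, b 2)), mem_paths.2 (hadj 2), ((c, a 3), (a 3, b 3)),
      mem_paths.2 (hadj 3), ⟨rfl, rfl, rfl, rfl⟩, ⟨rfl, rfl, rfl⟩, ?_⟩
    have e : [c, a 0, a 1, a 2, a 3, b 0, b 1, b 2, b 3] =
        c :: ((List.finRange 4).map a ++ (List.finRange 4).map b) := by
      simp [List.finRange_succ]
    change [c, a 0, a 1, a 2, a 3, b 0, b 1, b 2, b 3].Nodup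
    rw [e, List.nodup_cons, List.mem_append, List.mem_map, List.mem_map]
    refine ⟨?_, ?_⟩
    · rintro (⟨i, -, h⟩ | ⟨i, -, h⟩)
      · exact hac i h
      · exact hbc i h
    · refine List.Nodup.append ((List.nodup_finRange 4).map ha) ((List.nodup_finRange 4).map hb) ?_
      intro x hx hy
      obtain ⟨i, -, rfl⟩ := List.mem_map.1 hx
      obtain ⟨j, -, h⟩ := List.mem_map.1 hy
      exact hab i j h.symm
  · rintro ⟨p, hp, q, hq, r, hr, s, hs, ⟨e1, e2, e3, e4⟩, ⟨f1, f2, f3⟩, hn⟩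
    rw [mem_paths] at hp hq hr hs
    rw [← e1] at hp
    rw [← e2, ← f1] at hq
    rw [← e3, ← f2] at hr
    rw [← e4, ← f3] at hs
    have hlen : [p.1.1, p.1.2, q.1.2, r.1.2, s.1.2, p.2.2, q.2.2, r.2.2, s.2.2].length = 9 := rfl
    generalize hl : [p.1.1, p.1.2, q.1.2, r.1.2, s.1.2, p.2.2, q.2.2, r.2.2, s.2.2] = l at hn hlen
    have hc : l[0]? = some p.1.1 := by rw [← hl]; rfl
    have ha : ∀ i : Fin 4, l[1 + i.1]? = some ((![p.1.2, q.1.2, r.1.2, s.1.2] : Fin 4 → ℕ) i) := by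
      intro i
      rw [← hl]
      fin_cases i <;> rfl
    have hb : ∀ i : Fin 4, l[5 + i.1]? = some ((![p.2.2, q.2.2, r.2.2, s.2.2] : Fin 4 → ℕ) i) := by
      intro i
      rw [← hl]
      fin_cases i <;> rfl
    have key : ∀ m n : ℕ, m < 9 → l[m]? = l[n]? → m = n := by
      intro m n hm h
      exact (List.getElem?_inj (by omega) hn).1 h
    refine ⟨p.1.1, ![p.1.2, q.1.2, r.1.2, s.1.2], ![p.2.2, q.2.2, r.2.2, s.2.2],
      ?_, ?_, ?_, ?_, ?_, ?_⟩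
    · intro i j hij
      have := key (1 + i.1) (1 + j.1) (by omega) (by rw [ha, ha, hij])
      exact Fin.ext (by omega)
    · intro i j hij
      have := key (5 + i.1) (5 + j.1) (by omega) (by rw [hb, hb, hij])
      exact Fin.ext (by omega)
    · intro i j hij
      have := key (1 + i.1) (5 + j.1) (by omega) (by rw [ha, hb, hij])
      omega
    · intro i hi
      have := key (1 + i.1) 0 (by omega) (by rw [ha, hc, hi])
      omega
    · intro i hi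
      have := key (5 + i.1) 0 (by omega) (by rw [hb, hc, hi])
      omega
    · intro i
      fin_cases i
      · exact hp
      · exact hq
      · exact hr
      · exact hs

/-- The cut, with bounded quantifiers. -/
def CutB (V : List ℕ) (E : List (ℕ × ℕ)) (w : List ℕ) : Prop :=
  (∃ v ∈ V, v ∈ w) ∧ (∃ v ∈ V, v ∉ w) ∧ ∀ e ∈ dbl E, ∀ e' ∈ dbl E, e.1 = e'.1 →
    (e.2 ∈ w ↔ e.1 ∉ w) → (e'.2 ∈ w ↔ e'.1 ∉ w) → e.2 = e'.2

/-- The relation. -/
def Rel (I : List ℕ × List (ℕ × ℕ)) (w : List ℕ) : Prop :=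
  (I.1.Nodup ∧ (∀ e ∈ I.2, e.1 ∈ I.1 ∧ e.2 ∈ I.1 ∧ e.1 ≠ e.2) ∧ I.2.Nodup ∧
    ∀ e ∈ I.2, (e.2, e.1) ∉ I.2) ∧ ¬ SpiderB I.2 ∧ CutB I.1 I.2 w

theorem rel_iff (I : List ℕ × List (ℕ × ℕ)) : MatchingCutSpiderFree I ↔
    ∃ w, sz w ≤ (Polynomial.X : Polynomial ℕ).eval (sz I) ∧ Rel I w := by
  classical
  constructor
  · rintro ⟨hg, hs, A, ⟨u, hu, hAu⟩, ⟨v, hv, hAv⟩, h⟩
    refine ⟨I.1.filter (fun x => decide (A x)), ?_, isGraph_iff.1 hg, ?_, ⟨u, hu, ?_⟩,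
      ⟨v, hv, ?_⟩, ?_⟩
    · rw [Polynomial.eval_X]
      obtain ⟨V, E⟩ := I
      have := sz_filter_le (fun x => decide (A x)) V
      simp only [sz_pair]
      omega
    · rwa [← spider_iff]
    · exact List.mem_filter.2 ⟨hu, by simpa using hAu⟩
    · intro hm
      exact hAv (by simpa using (List.mem_filter.1 hm).2)
    · rintro ⟨x, y⟩ he ⟨x', z⟩ he' hx h1 h2
      simp only at hx h1 h2 ⊢
      subst hx
      rw [mem_dbl] at he he'
      obtain ⟨m1, m2⟩ := adj_mem hg.2.1 he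
      obtain ⟨-, m3⟩ := adj_mem hg.2.1 he'
      refine h x y z he he' ?_ ?_
      · simpa [m1, m2] using h1
      · simpa [m1, m3] using h2
  · rintro ⟨w, -, hg, hs, ⟨u, hu, hAu⟩, ⟨v, hv, hAv⟩, h⟩
    refine ⟨isGraph_iff.2 hg, by rwa [spider_iff], fun x => x ∈ w, ⟨u, hu, hAu⟩, ⟨v, hv, hAv⟩, ?_⟩
    intro x y z hxy hxz h1 h2
    exact h (x, y) (mem_dbl.2 hxy) (x, z) (mem_dbl.2 hxz) rfl h1 h2

section

variable {α : Type} [TEnc α]

@[fun_prop]
theorem poly_dbl {E : α → List (ℕ × ℕ)} (h : Poly E) : Poly (fun a => dbl (E a)) := by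
  unfold dbl
  fun_prop

@[fun_prop]
theorem poly_paths {E : α → List (ℕ × ℕ)} (h : Poly E) : Poly (fun a => paths (E a)) := by
  unfold paths
  fun_prop

@[fun_prop]
theorem dec_ok {p q r s : α → (ℕ × ℕ) × (ℕ × ℕ)} [inst : ∀ a, Decidable (Ok (p a) (q a) (r a) (s a))]
    (hp : Poly p) (hq : Poly q) (hr : Poly r) (hs : Poly s) :
    Poly (fun a => @decide (Ok (p a) (q a) (r a) (s a)) (inst a)) := by
  have h1 : Poly (fun a => ((p a).1.1 :: [(p a).1.2, (q a).1.2, (r a).1.2, (s a).1.2, (p a).2.2,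
      (q a).2.2, (r a).2.2, (s a).2.2] : List ℕ)) := by
    fun_prop
  have h2 : Poly (fun a => @decide ((p a).1.1 :: [(p a).1.2, (q a).1.2, (r a).1.2, (s a).1.2,
      (p a).2.2, (q a).2.2, (r a).2.2, (s a).2.2] : List ℕ).Nodup (Classical.propDecidable _)) :=
    @dec_nodup _ _ _ _ _ (fun _ => Classical.propDecidable _) h1
  have h3 : Poly (fun a => @decide ((p a).1.2 = (p a).2.1 ∧ (q a).1.2 = (q a).2.1 ∧
      (r a).1.2 = (r a).2.1 ∧ (s a).1.2 = (s a).2.1) (Classical.propDecidable _)) := by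
    fun_prop
  have h4 : Poly (fun a => @decide ((p a).1.1 = (q a).1.1 ∧ (p a).1.1 = (r a).1.1 ∧
      (p a).1.1 = (s a).1.1) (Classical.propDecidable _)) := by
    fun_prop
  exact PP.dec (PP.and ⟨_, h3, fun a => by simp⟩ (PP.and ⟨_, h4, fun a => by simp⟩
    ⟨_, h2, fun a => by simp⟩))

@[fun_prop]
theorem dec_spiderB {E : α → List (ℕ × ℕ)} [inst : ∀ a, Decidable (SpiderB (E a))] (h : Poly E) :
    Poly (fun a => @decide (SpiderB (E a)) (inst a)) := by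
  unfold SpiderB
  fun_prop

@[fun_prop]
theorem dec_cutB {V : α → List ℕ} {E : α → List (ℕ × ℕ)} {w : α → List ℕ}
    [inst : ∀ a, Decidable (CutB (V a) (E a) (w a))] (hV : Poly V) (hE : Poly E) (hw : Poly w) :
    Poly (fun a => @decide (CutB (V a) (E a) (w a)) (inst a)) := by
  unfold CutB
  fun_prop

end

theorem poly_rel : Poly (fun x : (List ℕ × List (ℕ × ℕ)) × List ℕ =>
    @decide (Rel x.1 x.2) (Classical.propDecidable _)) := by
  unfold Rel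
  fun_prop

theorem inNP : InNPP MatchingCutSpiderFree := inNPP_rel poly_rel Polynomial.X rel_iff

end Pool.Agent.X249.MC
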