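import Pool.Agent.X249.MC.Defs

/-!
# The graph of a system of constraints `x = y ∨ x = z`
-/

set_option autoImplicit false

namespace Pool.Agent.X249.MC

/-- Variables. -/
abbrev X : Type := ℕ × ℕ

/-- Vertices. -/
abbrev W : Type := X × ℕ × ℕ

/-- A nonconstant solution of the constraints `x = y ∨ x = z`. -/
def RSol (L : List X) (C : List (X × X × X)) (val : X → Prop) : Prop :=
  (∀ c ∈ C, (val c.1 ↔ val c.2.1) ∨ (val c.1 ↔ val c.2.2)) ∧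
    (∃ x ∈ L, val x) ∧ ∃ x ∈ L, ¬ val x

def P (i : ℕ) : W := ((0, 0), i, 2)
def Q (i : ℕ) : W := ((0, 0), i, 3)

/-- The vertices. -/
def Vl (L : List X) (m : ℕ) : List W :=
  ((L ×ˢ List.range (3 * m)).map (fun p : X × ℕ => ((p.1, p.2, 0) : W)) ++
    (L ×ˢ List.range (3 * m - 1)).map (fun p : X × ℕ => ((p.1, p.2, 1) : W)) ++
    (List.range m).map (fun i => (((0, 0), i, 2) : W)) ++
    (List.range m).map (fun i => (((0, 0), i, 3) : W))).dedup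

/-- The edges. -/
def El (L : List X) (C : List (X × X × X)) : List (W × W) :=
  ((L ×ˢ List.range (3 * C.length - 1)).map
      (fun p : X × ℕ => (((p.1, p.2, 0), (p.1, p.2 + 1, 0)) : W × W)) ++
    (L ×ˢ List.range (3 * C.length - 1)).map
      (fun p : X × ℕ => (((p.1, p.2, 1), (p.1, p.2, 0)) : W × W)) ++
    (L ×ˢ List.range (3 * C.length - 1)).map
      (fun p : X × ℕ => (((p.1, p.2, 1), (p.1, p.2 + 1, 0)) : W × W)) ++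
    C.zipIdx.map (fun p : (X × X × X) × ℕ => ((((0, 0), p.2, 2), (p.1.1, 3 * p.2, 0)) : W × W)) ++
    C.zipIdx.map (fun p : (X × X × X) × ℕ =>
      ((((0, 0), p.2, 2), (p.1.2.1, 3 * p.2 + 1, 0)) : W × W)) ++
    C.zipIdx.map (fun p : (X × X × X) × ℕ =>
      ((((0, 0), p.2, 2), (p.1.2.2, 3 * p.2 + 2, 0)) : W × W)) ++
    C.zipIdx.map (fun p : (X × X × X) × ℕ => ((((0, 0), p.2, 3), (p.1.1, 3 * p.2, 0)) : W × W)) ++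
    C.zipIdx.map (fun p : (X × X × X) × ℕ => ((((0, 0), p.2, 3), ((0, 0), p.2, 2)) : W × W))).dedup

theorem mem_prod {α β : Type} {l : List α} {l' : List β} {p : α × β} :
    p ∈ l ×ˢ l' ↔ p.1 ∈ l ∧ p.2 ∈ l' := by
  obtain ⟨a, b⟩ := p
  exact List.mem_product

theorem mem_Vl {L : List X} {m : ℕ} {v : W} : v ∈ Vl L m ↔
    (∃ x ∈ L, ∃ k, k < 3 * m ∧ v = (x, k, 0)) ∨
    (∃ x ∈ L, ∃ k, k < 3 * m - 1 ∧ v = (x, k, 1)) ∨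
    (∃ i, i < m ∧ v = P i) ∨ (∃ i, i < m ∧ v = Q i) := by
  unfold Vl P Q
  rw [List.mem_dedup, List.mem_append, List.mem_append, List.mem_append]
  simp only [List.mem_map, List.mem_product, List.mem_range, Prod.exists]
  constructor
  · rintro (((⟨x, y, k, ⟨h1, h2⟩, rfl⟩ | ⟨x, y, k, ⟨h1, h2⟩, rfl⟩) | ⟨i, h, rfl⟩) | ⟨i, h, rfl⟩)
    · exact Or.inl ⟨x, y, h1, k, h2, rfl⟩
    · exact Or.inr (Or.inl ⟨x, y, h1, k, h2, rfl⟩)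
    · exact Or.inr (Or.inr (Or.inl ⟨i, h, rfl⟩))
    · exact Or.inr (Or.inr (Or.inr ⟨i, h, rfl⟩))
  · rintro (⟨x, y, h1, k, h2, rfl⟩ | ⟨x, y, h1, k, h2, rfl⟩ | ⟨i, h, rfl⟩ | ⟨i, h, rfl⟩)
    · exact Or.inl (Or.inl (Or.inl ⟨x, y, k, ⟨h1, h2⟩, rfl⟩))
    · exact Or.inl (Or.inl (Or.inr ⟨x, y, k, ⟨h1, h2⟩, rfl⟩))
    · exact Or.inl (Or.inr ⟨i, h, rfl⟩)
    · exact Or.inr ⟨i, h, rfl⟩

/-- The description of the edges. -/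
def Edge (L : List X) (C : List (X × X × X)) (u v : W) : Prop :=
  (∃ x ∈ L, ∃ k, k < 3 * C.length - 1 ∧
    ((u = (x, k, 0) ∧ v = (x, k + 1, 0)) ∨ (u = (x, k, 1) ∧ v = (x, k, 0)) ∨
      (u = (x, k, 1) ∧ v = (x, k + 1, 0)))) ∨
  (∃ c i, C[i]? = some c ∧
    ((u = P i ∧ (v = (c.1, 3 * i, 0) ∨ v = (c.2.1, 3 * i + 1, 0) ∨ v = (c.2.2, 3 * i + 2, 0))) ∨
      (u = Q i ∧ (v = (c.1, 3 * i, 0) ∨ v = P i))))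

theorem mem_El {L : List X} {C : List (X × X × X)} {u v : W} :
    (u, v) ∈ El L C ↔ Edge L C u v := by
  unfold El Edge P Q
  rw [List.mem_dedup]
  simp only [List.mem_append, List.mem_map, List.mem_zipIdx_iff_getElem?]
  constructor
  · simp only [mem_prod, List.mem_range]
    rintro (((((((⟨p, ⟨h1, h2⟩, h3⟩ | ⟨p, ⟨h1, h2⟩, h3⟩) | ⟨p, ⟨h1, h2⟩, h3⟩) | ⟨p, h, h3⟩) |
      ⟨p, h, h3⟩) | ⟨p, h, h3⟩) | ⟨p, h, h3⟩) | ⟨p, h, h3⟩) <;>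
    obtain ⟨h4, h5⟩ := Prod.mk.inj h3 <;> subst h4 <;> subst h5
    · exact Or.inl ⟨p.1, h1, p.2, h2, Or.inl ⟨rfl, rfl⟩⟩
    · exact Or.inl ⟨p.1, h1, p.2, h2, Or.inr (Or.inl ⟨rfl, rfl⟩)⟩
    · exact Or.inl ⟨p.1, h1, p.2, h2, Or.inr (Or.inr ⟨rfl, rfl⟩)⟩
    · exact Or.inr ⟨p.1, p.2, h, Or.inl ⟨rfl, Or.inl rfl⟩⟩
    · exact Or.inr ⟨p.1, p.2, h, Or.inl ⟨rfl, Or.inr (Or.inl rfl)⟩⟩
    · exact Or.inr ⟨p.1, p.2, h, Or.inl ⟨rfl, Or.inr (Or.inr rfl)⟩⟩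
    · exact Or.inr ⟨p.1, p.2, h, Or.inr ⟨rfl, Or.inl rfl⟩⟩
    · exact Or.inr ⟨p.1, p.2, h, Or.inr ⟨rfl, Or.inr rfl⟩⟩
  · rintro (⟨x, hx, k, hk, ⟨rfl, rfl⟩ | ⟨rfl, rfl⟩ | ⟨rfl, rfl⟩⟩ |
      ⟨c, i, h, ⟨rfl, rfl | rfl | rfl⟩ | ⟨rfl, rfl | rfl⟩⟩)
    · exact Or.inl (Or.inl (Or.inl (Or.inl (Or.inl (Or.inl (Or.inl ⟨(x, k), mem_prod.2 ⟨hx, List.mem_range.2 hk⟩, rfl⟩))))))
    · exact Or.inl (Or.inl (Or.inl (Or.inl (Or.inl (Or.inl (Or.inr ⟨(x, k), mem_prod.2 ⟨hx, List.mem_range.2 hk⟩, rfl⟩))))))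
    · exact Or.inl (Or.inl (Or.inl (Or.inl (Or.inl (Or.inr ⟨(x, k), mem_prod.2 ⟨hx, List.mem_range.2 hk⟩, rfl⟩)))))
    · exact Or.inl (Or.inl (Or.inl (Or.inl (Or.inr ⟨(c, i), h, rfl⟩))))
    · exact Or.inl (Or.inl (Or.inl (Or.inr ⟨(c, i), h, rfl⟩)))
    · exact Or.inl (Or.inl (Or.inr ⟨(c, i), h, rfl⟩))
    · exact Or.inl (Or.inr ⟨(c, i), h, rfl⟩)
    · exact Or.inr ⟨(c, i), h, rfl⟩

section

variable {L : List X} {C : List (X × X × X)}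

theorem adj_iff {u v : W} : Adj (El L C) u v ↔ Edge L C u v ∨ Edge L C v u := by
  unfold Adj
  rw [mem_El, mem_El]

/-! ### The neighbours -/

theorem nb0 {x : X} {k : ℕ} {a : W} (h : Adj (El L C) (x, k, 0) a) :
    a = (x, k + 1, 0) ∨ a = (x, k, 1) ∨ (1 ≤ k ∧ (a = (x, k - 1, 0) ∨ a = (x, k - 1, 1))) ∨
      a = P (k / 3) ∨ a = Q (k / 3) := by
  rw [adj_iff] at h
  unfold Edge P Q at h
  unfold P Q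
  rcases h with ((⟨x', hx, k', hk, ⟨h1, h2⟩ | ⟨h1, h2⟩ | ⟨h1, h2⟩⟩ |
      ⟨c, i, h, ⟨h1, h2 | h2 | h2⟩ | ⟨h1, h2 | h2⟩⟩) |
      (⟨x', hx, k', hk, ⟨h1, h2⟩ | ⟨h1, h2⟩ | ⟨h1, h2⟩⟩ |
      ⟨c, i, h, ⟨h1, h2 | h2 | h2⟩ | ⟨h1, h2 | h2⟩⟩)) <;>
  simp only [Prod.mk.injEq] at h1 h2 <;> (try omega)
  · obtain ⟨rfl, rfl, -⟩ := h1
    exact Or.inl h2
  · obtain ⟨rfl, rfl, -⟩ := h2
    subst h1
    right; right; left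
    exact ⟨by omega, Or.inl rfl⟩
  · obtain ⟨rfl, rfl, -⟩ := h2
    subst h1
    exact Or.inr (Or.inl rfl)
  · obtain ⟨rfl, rfl, -⟩ := h2
    subst h1
    right; right; left
    exact ⟨by omega, Or.inr rfl⟩
  · obtain ⟨rfl, rfl, -⟩ := h2
    subst h1
    right; right; right; left
    congr 2
    omega
  · obtain ⟨rfl, rfl, -⟩ := h2
    subst h1
    right; right; right; left
    congr 2
    omega
  · obtain ⟨rfl, rfl, -⟩ := h2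
    subst h1
    right; right; right; left
    congr 2
    omega
  · obtain ⟨rfl, rfl, -⟩ := h2
    subst h1
    right; right; right; right
    congr 2
    omega

theorem nb1 {x : X} {k : ℕ} {a : W} (h : Adj (El L C) (x, k, 1) a) :
    a = (x, k, 0) ∨ a = (x, k + 1, 0) := by
  rw [adj_iff] at h
  unfold Edge P Q at h
  rcases h with ((⟨x', hx, k', hk, ⟨h1, h2⟩ | ⟨h1, h2⟩ | ⟨h1, h2⟩⟩ |
      ⟨c, i, h, ⟨h1, h2 | h2 | h2⟩ | ⟨h1, h2 | h2⟩⟩) |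
      (⟨x', hx, k', hk, ⟨h1, h2⟩ | ⟨h1, h2⟩ | ⟨h1, h2⟩⟩ |
      ⟨c, i, h, ⟨h1, h2 | h2 | h2⟩ | ⟨h1, h2 | h2⟩⟩)) <;>
  simp only [Prod.mk.injEq] at h1 h2 <;> (try omega)
  · obtain ⟨rfl, rfl, -⟩ := h1
    exact Or.inl h2
  · obtain ⟨rfl, rfl, -⟩ := h1
    exact Or.inr h2

theorem nb2 {i : ℕ} {a : W} (h : Adj (El L C) (P i) a) : ∃ c, C[i]? = some c ∧
    (a = (c.1, 3 * i, 0) ∨ a = (c.2.1, 3 * i + 1, 0) ∨ a = (c.2.2, 3 * i + 2, 0) ∨ a = Q i) := by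
  rw [adj_iff] at h
  unfold Edge P Q at h
  unfold Q
  rcases h with ((⟨x', hx, k', hk, ⟨h1, h2⟩ | ⟨h1, h2⟩ | ⟨h1, h2⟩⟩ |
      ⟨c, i', h, ⟨h1, h2 | h2 | h2⟩ | ⟨h1, h2 | h2⟩⟩) |
      (⟨x', hx, k', hk, ⟨h1, h2⟩ | ⟨h1, h2⟩ | ⟨h1, h2⟩⟩ |
      ⟨c, i', h, ⟨h1, h2 | h2 | h2⟩ | ⟨h1, h2 | h2⟩⟩)) <;>
  simp only [Prod.mk.injEq] at h1 h2 <;> (try omega)
  · obtain ⟨-, rfl, -⟩ := h1
    exact ⟨c, h, Or.inl h2⟩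
  · obtain ⟨-, rfl, -⟩ := h1
    exact ⟨c, h, Or.inr (Or.inl h2)⟩
  · obtain ⟨-, rfl, -⟩ := h1
    exact ⟨c, h, Or.inr (Or.inr (Or.inl h2))⟩
  · obtain ⟨-, rfl, -⟩ := h2
    exact ⟨c, h, Or.inr (Or.inr (Or.inr h1))⟩

theorem nb3 {i : ℕ} {a : W} (h : Adj (El L C) (Q i) a) : ∃ c, C[i]? = some c ∧
    (a = (c.1, 3 * i, 0) ∨ a = P i) := by
  rw [adj_iff] at h
  unfold Edge P Q at h
  unfold P
  rcases h with ((⟨x', hx, k', hk, ⟨h1, h2⟩ | ⟨h1, h2⟩ | ⟨h1, h2⟩⟩ |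
      ⟨c, i', h, ⟨h1, h2 | h2 | h2⟩ | ⟨h1, h2 | h2⟩⟩) |
      (⟨x', hx, k', hk, ⟨h1, h2⟩ | ⟨h1, h2⟩ | ⟨h1, h2⟩⟩ |
      ⟨c, i', h, ⟨h1, h2 | h2 | h2⟩ | ⟨h1, h2 | h2⟩⟩)) <;>
  simp only [Prod.mk.injEq] at h1 h2 <;> (try omega)
  · obtain ⟨-, rfl, -⟩ := h1
    exact ⟨c, h, Or.inl h2⟩
  · obtain ⟨-, rfl, -⟩ := h1
    exact ⟨c, h, Or.inr h2⟩

end

end Pool.Agent.X249.MC
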