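import Pool.Agent.X249.MC.Build

/-!
# Matching cuts of the constructed graph are the nonconstant solutions
-/

set_option autoImplicit false

namespace Pool.Agent.X249.MC

variable {L : List X} {C : List (X × X × X)}

theorem El_ends (hC : ∀ c ∈ C, c.1 ∈ L ∧ c.2.1 ∈ L ∧ c.2.2 ∈ L) :
    ∀ e ∈ El L C, e.1 ∈ Vl L C.length ∧ e.2 ∈ Vl L C.length ∧ e.1 ≠ e.2 := by
  rintro ⟨u, v⟩ he
  rw [mem_El] at he
  unfold Edge at he
  rw [mem_Vl, mem_Vl]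
  rcases he with ⟨x, hx, k, hk, ⟨rfl, rfl⟩ | ⟨rfl, rfl⟩ | ⟨rfl, rfl⟩⟩ |
      ⟨c, i, h, hh⟩
  · refine ⟨Or.inl ⟨x, hx, k, by omega, rfl⟩, Or.inl ⟨x, hx, k + 1, by omega, rfl⟩, ?_⟩
    simp
  · refine ⟨Or.inr (Or.inl ⟨x, hx, k, by omega, rfl⟩), Or.inl ⟨x, hx, k, by omega, rfl⟩, ?_⟩
    simp
  · refine ⟨Or.inr (Or.inl ⟨x, hx, k, by omega, rfl⟩), Or.inl ⟨x, hx, k + 1, by omega, rfl⟩, ?_⟩
    simp
  · obtain ⟨hi, hc⟩ := List.getElem?_eq_some_iff.1 h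
    obtain ⟨h1, h2, h3⟩ := hC c (hc ▸ List.getElem_mem hi)
    rcases hh with ⟨rfl, rfl | rfl | rfl⟩ | ⟨rfl, rfl | rfl⟩
    · exact ⟨Or.inr (Or.inr (Or.inl ⟨i, hi, rfl⟩)), Or.inl ⟨_, h1, _, by omega, rfl⟩, by simp [P]⟩
    · exact ⟨Or.inr (Or.inr (Or.inl ⟨i, hi, rfl⟩)), Or.inl ⟨_, h2, _, by omega, rfl⟩, by simp [P]⟩
    · exact ⟨Or.inr (Or.inr (Or.inl ⟨i, hi, rfl⟩)), Or.inl ⟨_, h3, _, by omega, rfl⟩, by simp [P]⟩
    · exact ⟨Or.inr (Or.inr (Or.inr ⟨i, hi, rfl⟩)), Or.inl ⟨_, h1, _, by omega, rfl⟩, by simp [Q]⟩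
    · exact ⟨Or.inr (Or.inr (Or.inr ⟨i, hi, rfl⟩)), Or.inr (Or.inr (Or.inl ⟨i, hi, rfl⟩)),
        by simp [P, Q]⟩

theorem El_asymm {u v : W} (h : (u, v) ∈ El L C) (h' : (v, u) ∈ El L C) : False := by
  rw [mem_El] at h h'
  unfold Edge P Q at h h'
  rcases h with ⟨x, hx, k, hk, ⟨rfl, rfl⟩ | ⟨rfl, rfl⟩ | ⟨rfl, rfl⟩⟩ |
      ⟨c, i, h, ⟨rfl, rfl | rfl | rfl⟩ | ⟨rfl, rfl | rfl⟩⟩ <;>
  rcases h' with ⟨x', hx', k', hk', ⟨h1, h2⟩ | ⟨h1, h2⟩ | ⟨h1, h2⟩⟩ |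
      ⟨c', i', h', ⟨h1, h2 | h2 | h2⟩ | ⟨h1, h2 | h2⟩⟩ <;>
  simp only [Prod.mk.injEq] at h1 h2 <;> omega

theorem El_nodup : ((El L C).map (fun e => s(e.1, e.2))).Nodup := by
  refine List.Nodup.map_on ?_ (List.nodup_dedup _)
  rintro ⟨u, v⟩ ha ⟨u', v'⟩ hb hab
  rcases Sym2.eq_iff.1 hab with ⟨h1, h2⟩ | ⟨h1, h2⟩
  · simp only at h1 h2
    rw [h1, h2]
  · simp only at h1 h2
    subst h1 h2
    exact (El_asymm ha hb).elim

theorem Vl_nodup {m : ℕ} : (Vl L m).Nodup := List.nodup_dedup _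

theorem El_no_spider : ¬ Spider (El L C) := by
  apply no_spider
  intro c
  by_cases hc : ∃ a, Adj (El L C) c a
  swap
  · exact ⟨fun _ => c, fun _ => c, fun a ha => (hc ⟨a, ha⟩).elim⟩
  -- the four kinds of centres
  have kinds : (∃ x k, c = (x, k, 0)) ∨ (∃ x k, c = (x, k, 1)) ∨ (∃ i, c = P i) ∨ ∃ i, c = Q i := by
    obtain ⟨a, ha⟩ := hc
    rw [adj_iff] at ha
    unfold Edge at ha
    rcases ha with ((⟨x', hx, k', hk, ⟨h1, h2⟩ | ⟨h1, h2⟩ | ⟨h1, h2⟩⟩ |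
      ⟨c, i, h, ⟨h1, h2 | h2 | h2⟩ | ⟨h1, h2 | h2⟩⟩) |
      (⟨x', hx, k', hk, ⟨h1, h2⟩ | ⟨h1, h2⟩ | ⟨h1, h2⟩⟩ |
      ⟨c, i, h, ⟨h1, h2 | h2 | h2⟩ | ⟨h1, h2 | h2⟩⟩))
    · exact Or.inl ⟨_, _, h1⟩
    · exact Or.inr (Or.inl ⟨_, _, h1⟩)
    · exact Or.inr (Or.inl ⟨_, _, h1⟩)
    · exact Or.inr (Or.inr (Or.inl ⟨_, h1⟩))
    · exact Or.inr (Or.inr (Or.inl ⟨_, h1⟩))
    · exact Or.inr (Or.inr (Or.inl ⟨_, h1⟩))
    · exact Or.inr (Or.inr (Or.inr ⟨_, h1⟩))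
    · exact Or.inr (Or.inr (Or.inr ⟨_, h1⟩))
    · exact Or.inl ⟨_, _, h2⟩
    · exact Or.inl ⟨_, _, h2⟩
    · exact Or.inl ⟨_, _, h2⟩
    · exact Or.inl ⟨_, _, h2⟩
    · exact Or.inl ⟨_, _, h2⟩
    · exact Or.inl ⟨_, _, h2⟩
    · exact Or.inl ⟨_, _, h2⟩
    · exact Or.inr (Or.inr (Or.inl ⟨_, h2⟩))
  rcases kinds with ⟨x, k, rfl⟩ | ⟨x, k, rfl⟩ | ⟨i, rfl⟩ | ⟨i, rfl⟩
  · refine ⟨![(x, k + 1, 0), (x, k - 1, 0), P (k / 3)], ![(x, k, 1), (x, k - 1, 1), Q (k / 3)],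
      fun a ha => ?_⟩
    rcases nb0 ha with h | h | ⟨hk, h | h⟩ | h | h
    · exact ⟨0, Or.inl h⟩
    · refine ⟨0, Or.inr ⟨h, ?_⟩⟩
      subst h
      intro b hb
      exact nb1 hb
    · exact ⟨1, Or.inl h⟩
    · refine ⟨1, Or.inr ⟨h, ?_⟩⟩
      subst h
      intro b hb
      rcases nb1 hb with h1 | h1
      · exact Or.inr h1
      · left
        rw [h1, Nat.sub_add_cancel hk]
    · exact ⟨2, Or.inl h⟩
    · refine ⟨2, Or.inr ⟨h, ?_⟩⟩
      subst h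
      intro b hb
      obtain ⟨c, hc1, hc2⟩ := nb3 ha.symm
      obtain ⟨c', hc1', hc2'⟩ := nb3 hb
      rw [hc1, Option.some.injEq] at hc1'
      subst hc1'
      rcases hc2 with h2 | h2
      · rcases hc2' with h3 | h3
        · left
          rw [h3, h2]
        · exact Or.inr h3
      · exfalso
        unfold P at h2
        simp only [Prod.mk.injEq] at h2
        omega
  · refine ⟨![(x, k, 0), (x, k + 1, 0), (x, k, 0)], fun _ => (x, k, 0), fun a ha => ?_⟩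
    rcases nb1 ha with h | h
    · exact ⟨0, Or.inl h⟩
    · exact ⟨1, Or.inl h⟩
  · by_cases hi : ∃ c, C[i]? = some c
    swap
    · exact ⟨fun _ => P i, fun _ => P i, fun a ha => by
        obtain ⟨c, h1, -⟩ := nb2 ha
        exact (hi ⟨c, h1⟩).elim⟩
    obtain ⟨c, hc⟩ := hi
    refine ⟨![(c.1, 3 * i, 0), (c.2.1, 3 * i + 1, 0), (c.2.2, 3 * i + 2, 0)],
      ![Q i, Q i, Q i], fun a ha => ?_⟩
    obtain ⟨c', hc1, h⟩ := nb2 ha
    rw [hc, Option.some.injEq] at hc1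
    subst hc1
    rcases h with h | h | h | h
    · exact ⟨0, Or.inl h⟩
    · exact ⟨1, Or.inl h⟩
    · exact ⟨2, Or.inl h⟩
    · refine ⟨0, Or.inr ⟨h, ?_⟩⟩
      subst h
      intro b hb
      obtain ⟨c', hc1, h⟩ := nb3 hb
      rw [hc, Option.some.injEq] at hc1
      subst hc1
      exact h.symm
  · by_cases hi : ∃ c, C[i]? = some c
    swap
    · exact ⟨fun _ => P i, fun _ => P i, fun a ha => by
        obtain ⟨c, h1, -⟩ := nb3 ha
        exact (hi ⟨c, h1⟩).elim⟩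
    obtain ⟨c, hc⟩ := hi
    refine ⟨![(c.1, 3 * i, 0), P i, P i], fun _ => P i, fun a ha => ?_⟩
    obtain ⟨c', hc1, h⟩ := nb3 ha
    rw [hc, Option.some.injEq] at hc1
    subst hc1
    rcases h with h | h
    · exact ⟨0, Or.inl h⟩
    · exact ⟨1, Or.inl h⟩

/-! ### From a matching cut to a solution -/

/-- Triangles are monochromatic. -/
theorem tri {β : Type} {E : List (β × β)} {A : β → Prop}
    (h : ∀ v u w, Adj E v u → Adj E v w → (A u ↔ ¬ A v) → (A w ↔ ¬ A v) → u = w)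
    {u v w : β} (huv : Adj E u v) (huw : Adj E u w) (hvw : Adj E v w)
    (n1 : u ≠ v) (n2 : u ≠ w) (n3 : v ≠ w) : (A u ↔ A v) ∧ (A u ↔ A w) := by
  by_contra hc
  have h1 := h u v w huv huw
  have h2 := h v u w huv.symm hvw
  have h3 := h w u v huw.symm hvw.symm
  tauto

theorem edge_adj {u v : W} (h : Edge L C u v) : Adj (El L C) u v := adj_iff.2 (Or.inl h)

theorem rsol_of_cut (hC : ∀ c ∈ C, c.1 ∈ L ∧ c.2.1 ∈ L ∧ c.2.2 ∈ L)
    (h : MatchCut (Vl L C.length) (El L C)) : ∃ val, RSol L C val := by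
  obtain ⟨A, ⟨u, hu, hAu⟩, ⟨v, hv, hAv⟩, hm⟩ := h
  have step : ∀ x ∈ L, ∀ k, k < 3 * C.length - 1 →
      (A (x, k, 0) ↔ A (x, k + 1, 0)) ∧ (A (x, k, 0) ↔ A (x, k, 1)) := by
    intro x hx k hk
    refine tri hm (edge_adj (Or.inl ⟨x, hx, k, hk, Or.inl ⟨rfl, rfl⟩⟩))
      (edge_adj (Or.inl ⟨x, hx, k, hk, Or.inr (Or.inl ⟨rfl, rfl⟩)⟩)).symm
      (edge_adj (Or.inl ⟨x, hx, k, hk, Or.inr (Or.inr ⟨rfl, rfl⟩)⟩)).symm ?_ ?_ ?_ <;> simp
  have path : ∀ x ∈ L, ∀ k, k < 3 * C.length → (A (x, 0, 0) ↔ A (x, k, 0)) := by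
    intro x hx k
    induction k with
    | zero => intro _; exact Iff.rfl
    | succ k ih =>
      intro hk
      exact (ih (by omega)).trans (step x hx k (by omega)).1
  have pend : ∀ i c, C[i]? = some c → (A (P i) ↔ A (c.1, 3 * i, 0)) ∧ (A (P i) ↔ A (Q i)) := by
    intro i c hi
    refine tri hm (edge_adj (Or.inr ⟨c, i, hi, Or.inl ⟨rfl, Or.inl rfl⟩⟩))
      (edge_adj (Or.inr ⟨c, i, hi, Or.inr ⟨rfl, Or.inr rfl⟩⟩)).symm
      (edge_adj (Or.inr ⟨c, i, hi, Or.inr ⟨rfl, Or.inl rfl⟩⟩)).symm ?_ ?_ ?_ <;> simp [P, Q]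
  have rep : ∀ w ∈ Vl L C.length, ∃ x ∈ L, (A (x, 0, 0) ↔ A w) := by
    intro w hw
    rw [mem_Vl] at hw
    rcases hw with ⟨x, hx, k, hk, rfl⟩ | ⟨x, hx, k, hk, rfl⟩ | ⟨i, hi, rfl⟩ | ⟨i, hi, rfl⟩
    · exact ⟨x, hx, path x hx k hk⟩
    · exact ⟨x, hx, (path x hx k (by omega)).trans (step x hx k hk).2⟩
    · have h1 := pend i _ (List.getElem?_eq_getElem hi)
      have h2 := (hC _ (List.getElem_mem hi)).1
      exact ⟨_, h2, (path _ h2 (3 * i) (by omega)).trans h1.1.symm⟩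
    · have h1 := pend i _ (List.getElem?_eq_getElem hi)
      have h2 := (hC _ (List.getElem_mem hi)).1
      exact ⟨_, h2, (path _ h2 (3 * i) (by omega)).trans (h1.1.symm.trans h1.2)⟩
  refine ⟨fun x => A (x, 0, 0), ?_, ?_, ?_⟩
  · intro c hc
    obtain ⟨i, hi, rfl⟩ := List.getElem_of_mem hc
    have h1 := pend i _ (List.getElem?_eq_getElem hi)
    obtain ⟨m1, m2, m3⟩ := hC _ hc
    have p1 := path _ m1 (3 * i) (by omega)
    have p2 := path _ m2 (3 * i + 1) (by omega)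
    have p3 := path _ m3 (3 * i + 2) (by omega)
    have h2 := hm (P i) (C[i].2.1, 3 * i + 1, 0) (C[i].2.2, 3 * i + 2, 0)
      (edge_adj (Or.inr ⟨_, i, List.getElem?_eq_getElem hi, Or.inl ⟨rfl, Or.inr (Or.inl rfl)⟩⟩))
      (edge_adj (Or.inr ⟨_, i, List.getElem?_eq_getElem hi, Or.inl ⟨rfl, Or.inr (Or.inr rfl)⟩⟩))
    have h3 : ((C[i].2.1, 3 * i + 1, 0) : W) ≠ (C[i].2.2, 3 * i + 2, 0) := by simp
    have h4 := h1.1
    tauto
  · obtain ⟨x, hx, h1⟩ := rep u hu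
    exact ⟨x, hx, h1.2 hAu⟩
  · obtain ⟨x, hx, h1⟩ := rep v hv
    exact ⟨x, hx, fun h2 => hAv (h1.1 h2)⟩

/-! ### From a solution to a matching cut -/

open Classical in
/-- The side of a vertex. -/
noncomputable def side (C : List (X × X × X)) (val : X → Prop) (v : W) : Prop :=
  if v.2.2 < 2 then val v.1 else
    match C[v.2.1]? with
    | some c => val c.1
    | none => False

theorem side_low {val : X → Prop} {x : X} {k t : ℕ} (ht : t < 2) :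
    side C val (x, k, t) ↔ val x := by
  unfold side
  rw [if_pos ht]

theorem side_P {val : X → Prop} {i : ℕ} {c : X × X × X} (h : C[i]? = some c) :
    side C val (P i) ↔ val c.1 := by
  unfold side P
  rw [if_neg (by simp), h]

theorem side_Q {val : X → Prop} {i : ℕ} {c : X × X × X} (h : C[i]? = some c) :
    side C val (Q i) ↔ val c.1 := by
  unfold side Q
  rw [if_neg (by simp), h]

/-- The pairs of adjacent vertices on different sides. -/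
theorem cross {val : X → Prop} {u v : W} (h : Edge L C u v) (hs : ¬ (side C val u ↔ side C val v)) :
    ∃ c i, C[i]? = some c ∧ u = P i ∧
      ((v = (c.2.1, 3 * i + 1, 0) ∧ ¬ (val c.1 ↔ val c.2.1)) ∨
        (v = (c.2.2, 3 * i + 2, 0) ∧ ¬ (val c.1 ↔ val c.2.2))) := by
  rcases h with ⟨x, hx, k, hk, ⟨rfl, rfl⟩ | ⟨rfl, rfl⟩ | ⟨rfl, rfl⟩⟩ |
      ⟨c, i, h, ⟨rfl, rfl | rfl | rfl⟩ | ⟨rfl, rfl | rfl⟩⟩
  · rw [side_low (by omega), side_low (by omega)] at hs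
    exact (hs Iff.rfl).elim
  · rw [side_low (by omega), side_low (by omega)] at hs
    exact (hs Iff.rfl).elim
  · rw [side_low (by omega), side_low (by omega)] at hs
    exact (hs Iff.rfl).elim
  · rw [side_P h, side_low (by omega)] at hs
    exact (hs Iff.rfl).elim
  · rw [side_P h, side_low (by omega)] at hs
    exact ⟨c, i, h, rfl, Or.inl ⟨rfl, hs⟩⟩
  · rw [side_P h, side_low (by omega)] at hs
    exact ⟨c, i, h, rfl, Or.inr ⟨rfl, hs⟩⟩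
  · rw [side_Q h, side_low (by omega)] at hs
    exact (hs Iff.rfl).elim
  · rw [side_Q h, side_P h] at hs
    exact (hs Iff.rfl).elim

theorem cut_of_rsol (hm : C ≠ []) {val : X → Prop} (h : RSol L C val) :
    MatchCut (Vl L C.length) (El L C) := by
  obtain ⟨h1, ⟨x, hx, hvx⟩, y, hy, hvy⟩ := h
  have hlen : 0 < C.length := List.length_pos_iff.2 hm
  refine ⟨side C val, ⟨(x, 0, 0), ?_, ?_⟩, ⟨(y, 0, 0), ?_, ?_⟩, ?_⟩
  · rw [mem_Vl]
    exact Or.inl ⟨x, hx, 0, by omega, rfl⟩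
  · rw [side_low (by omega)]
    exact hvx
  · rw [mem_Vl]
    exact Or.inl ⟨y, hy, 0, by omega, rfl⟩
  · rw [side_low (by omega)]
    exact hvy
  · intro v u w hvu hvw hu hw
    rw [adj_iff] at hvu hvw
    have nu : ¬ (side C val v ↔ side C val u) := by tauto
    have nu' : ¬ (side C val u ↔ side C val v) := by tauto
    have nw : ¬ (side C val v ↔ side C val w) := by tauto
    have nw' : ¬ (side C val w ↔ side C val v) := by tauto
    rcases hvu with hvu | hvu <;> rcases hvw with hvw | hvw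
    · obtain ⟨c, i, hi, rfl, hh⟩ := cross hvu nu
      obtain ⟨c', i', hi', hP, hh'⟩ := cross hvw nw
      have : i = i' := by
        unfold P at hP
        simpa using hP
      subst this
      rw [hi, Option.some.injEq] at hi'
      subst hi'
      have h2 := h1 c (List.mem_of_getElem? hi)
      rcases hh with ⟨rfl, h3⟩ | ⟨rfl, h3⟩ <;> rcases hh' with ⟨rfl, h4⟩ | ⟨rfl, h4⟩ <;>
        first | rfl | (exfalso; tauto)
    · obtain ⟨c, i, hi, rfl, hh⟩ := cross hvu nu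
      obtain ⟨c', i', hi', -, hh'⟩ := cross hvw nw'
      exfalso
      unfold P at hh'
      rcases hh' with ⟨h3, -⟩ | ⟨h3, -⟩ <;> simp at h3
    · obtain ⟨c, i, hi, -, hh⟩ := cross hvu nu'
      obtain ⟨c', i', hi', rfl, hh'⟩ := cross hvw nw
      exfalso
      unfold P at hh
      rcases hh with ⟨h3, -⟩ | ⟨h3, -⟩ <;> simp at h3
    · obtain ⟨c, i, hi, rfl, hh⟩ := cross hvu nu'
      obtain ⟨c', i', hi', rfl, hh'⟩ := cross hvw nw'
      have : i = i' := by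
        rcases hh with ⟨h3, -⟩ | ⟨h3, -⟩ <;> rcases hh' with ⟨h4, -⟩ | ⟨h4, -⟩ <;>
        · rw [h3] at h4
          simp only [Prod.mk.injEq] at h4
          omega
      rw [this]

end Pool.Agent.X249.MC
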