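import Pool.Agent.X249.Kit

/-!
# Matching cuts and the spider with four legs of length two
-/

set_option autoImplicit false

namespace Pool.Agent.X249.MC

open Pool.Agent.NPC Pool.Agent.NPC.H634R2

/-- `u` and `v` are adjacent in the graph with the list of edges `E`. -/
def Adj {β : Type} (E : List (β × β)) (u v : β) : Prop := (u, v) ∈ E ∨ (v, u) ∈ E

theorem Adj.symm {β : Type} {E : List (β × β)} {u v : β} (h : Adj E u v) : Adj E v u :=
  h.elim Or.inr Or.inl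

/-- The graph has a matching cut: the vertices are divided into two nonempty classes, and no vertex
has two neighbours in the other class (so the edges between the classes form a matching). -/
def MatchCut {β : Type} (V : List β) (E : List (β × β)) : Prop :=
  ∃ A : β → Prop, (∃ v ∈ V, A v) ∧ (∃ v ∈ V, ¬ A v) ∧
    ∀ v u w, Adj E v u → Adj E v w → (A u ↔ ¬ A v) → (A w ↔ ¬ A v) → u = w

/-- The graph has a subgraph isomorphic to `S_{2,2,2,2}`, the star with four leaves and all edges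
subdivided once: `c` is the centre, the `a i` are its neighbours, the `b i` are the leaves. -/
def Spider {β : Type} (E : List (β × β)) : Prop :=
  ∃ (c : β) (a b : Fin 4 → β), Function.Injective a ∧ Function.Injective b ∧
    (∀ i j, a i ≠ b j) ∧ (∀ i, a i ≠ c) ∧ (∀ i, b i ≠ c) ∧
    ∀ i, Adj E c (a i) ∧ Adj E (a i) (b i)

/-- Matching Cut restricted to `S_{2,2,2,2}`-subgraph-free graphs: `I = (V, E)` is a finite simple
graph without a subgraph isomorphic to `S_{2,2,2,2}`, and it has a matching cut. -/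
def MatchingCutSpiderFree (I : List ℕ × List (ℕ × ℕ)) : Prop :=
  IsGraph I.1 I.2 ∧ ¬ Spider I.2 ∧ MatchCut I.1 I.2

theorem no_spider {β : Type} {E : List (β × β)}
    (h : ∀ c, ∃ main apex : Fin 3 → β, ∀ a, Adj E c a → ∃ j, a = main j ∨
      (a = apex j ∧ ∀ b, Adj E a b → b = c ∨ b = main j)) : ¬ Spider E := by
  rintro ⟨c, a, b, ha, hb, hab, hac, hbc, hadj⟩
  obtain ⟨main, apex, hg⟩ := h c
  choose j hj using fun i => hg (a i) (hadj i).1
  obtain ⟨i, l, hil, hjj⟩ := Fintype.exists_ne_map_eq_of_card_lt j (by simp)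
  rcases hj i with h1 | ⟨h1, h1'⟩ <;> rcases hj l with h2 | ⟨h2, h2'⟩
  · exact hil (ha (by rw [h1, h2, hjj]))
  · rcases h2' (b l) (hadj l).2 with h3 | h3
    · exact hbc _ h3
    · exact hab i l (by rw [h1, h3, hjj])
  · rcases h1' (b i) (hadj i).2 with h3 | h3
    · exact hbc _ h3
    · exact hab l i (by rw [h2, h3, hjj])
  · exact hil (ha (by rw [h1, h2, hjj]))

section Relabel

variable {β : Type} {V : List β} {E : List (β × β)} {f : β → ℕ}

theorem adj_map {u v : ℕ} : Adj (E.map fun e => (f e.1, f e.2)) u v ↔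
    ∃ u' v', Adj E u' v' ∧ u = f u' ∧ v = f v' := by
  unfold Adj
  constructor
  · rintro (h | h)
    · obtain ⟨⟨x, y⟩, hxy, he⟩ := List.mem_map.1 h
      simp only [Prod.mk.injEq] at he
      exact ⟨x, y, Or.inl hxy, he.1.symm, he.2.symm⟩
    · obtain ⟨⟨x, y⟩, hxy, he⟩ := List.mem_map.1 h
      simp only [Prod.mk.injEq] at he
      exact ⟨y, x, Or.inr hxy, he.2.symm, he.1.symm⟩
  · rintro ⟨x, y, h | h, rfl, rfl⟩
    · exact Or.inl (List.mem_map.2 ⟨_, h, rfl⟩)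
    · exact Or.inr (List.mem_map.2 ⟨_, h, rfl⟩)

theorem exists_inv [Nonempty β] (hf : ∀ x ∈ V, ∀ y ∈ V, f x = f y → x = y) :
    ∃ g : ℕ → β, ∀ v ∈ V, g (f v) = v := by
  classical
  refine ⟨fun n => if h : ∃ v ∈ V, f v = n then h.choose else Classical.arbitrary β, ?_⟩
  intro v hv
  have h : ∃ w ∈ V, f w = f v := ⟨v, hv, rfl⟩
  simp only
  rw [dif_pos h]
  exact hf _ h.choose_spec.1 _ hv h.choose_spec.2

theorem adj_mem (hE : ∀ e ∈ E, e.1 ∈ V ∧ e.2 ∈ V ∧ e.1 ≠ e.2) {u v : β} (h : Adj E u v) :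
    u ∈ V ∧ v ∈ V :=
  h.elim (fun h => ⟨(hE _ h).1, (hE _ h).2.1⟩) (fun h => ⟨(hE _ h).2.1, (hE _ h).1⟩)

theorem spider_map [Nonempty β] (hf : ∀ x ∈ V, ∀ y ∈ V, f x = f y → x = y)
    (hE : ∀ e ∈ E, e.1 ∈ V ∧ e.2 ∈ V ∧ e.1 ≠ e.2)
    (h : Spider (E.map fun e => (f e.1, f e.2))) : Spider E := by
  obtain ⟨g, hg⟩ := exists_inv (V := V) hf
  have key : ∀ u v, Adj (E.map fun e => (f e.1, f e.2)) u v →
      Adj E (g u) (g v) ∧ f (g u) = u ∧ f (g v) = v := by
    intro u v huv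
    obtain ⟨u', v', h1, rfl, rfl⟩ := adj_map.1 huv
    obtain ⟨h2, h3⟩ := adj_mem hE h1
    rw [hg _ h2, hg _ h3]
    exact ⟨h1, rfl, rfl⟩
  obtain ⟨c, a, b, ha, hb, hab, hac, hbc, hadj⟩ := h
  have ea : ∀ i, f (g (a i)) = a i := fun i => (key _ _ (hadj i).1).2.2
  have eb : ∀ i, f (g (b i)) = b i := fun i => (key _ _ (hadj i).2).2.2
  have ec : f (g c) = c := (key _ _ (hadj 0).1).2.1
  refine ⟨g c, fun i => g (a i), fun i => g (b i), ?_, ?_, ?_, ?_, ?_, ?_⟩
  · intro i j hij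
    apply ha
    rw [← ea i, ← ea j]
    exact congrArg f hij
  · intro i j hij
    apply hb
    rw [← eb i, ← eb j]
    exact congrArg f hij
  · intro i j hij
    apply hab i j
    rw [← ea i, ← eb j]
    exact congrArg f hij
  · intro i hi
    apply hac i
    rw [← ea i, ← ec]
    exact congrArg f hi
  · intro i hi
    apply hbc i
    rw [← eb i, ← ec]
    exact congrArg f hi
  · intro i
    exact ⟨(key _ _ (hadj i).1).1, (key _ _ (hadj i).2).1⟩

theorem matchCut_map [Nonempty β] (hf : ∀ x ∈ V, ∀ y ∈ V, f x = f y → x = y)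
    (hE : ∀ e ∈ E, e.1 ∈ V ∧ e.2 ∈ V ∧ e.1 ≠ e.2) :
    MatchCut V E ↔ MatchCut (V.map f) (E.map fun e => (f e.1, f e.2)) := by
  obtain ⟨g, hg⟩ := exists_inv (V := V) hf
  constructor
  · rintro ⟨A, ⟨u, hu, hAu⟩, ⟨v, hv, hAv⟩, h⟩
    refine ⟨fun n => A (g n), ⟨f u, List.mem_map_of_mem hu, ?_⟩,
      ⟨f v, List.mem_map_of_mem hv, ?_⟩, ?_⟩
    · beta_reduce
      rw [hg u hu]
      exact hAu
    · beta_reduce
      rw [hg v hv]
      exact hAv
    · intro x y z hxy hxz h1 h2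
      obtain ⟨x', y', h3, rfl, rfl⟩ := adj_map.1 hxy
      obtain ⟨x'', z', h4, h5, rfl⟩ := adj_map.1 hxz
      obtain ⟨m1, m2⟩ := adj_mem hE h3
      obtain ⟨m3, m4⟩ := adj_mem hE h4
      have : x' = x'' := hf _ m1 _ m3 h5
      subst this
      beta_reduce at h1 h2
      rw [hg _ m2, hg _ m1] at h1
      rw [hg _ m4, hg _ m1] at h2
      rw [h x' y' z' h3 h4 h1 h2]
  · rintro ⟨A, ⟨u, hu, hAu⟩, ⟨v, hv, hAv⟩, h⟩
    obtain ⟨u', hu', rfl⟩ := List.mem_map.1 hu
    obtain ⟨v', hv', rfl⟩ := List.mem_map.1 hv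
    refine ⟨fun x => A (f x), ⟨u', hu', hAu⟩, ⟨v', hv', hAv⟩, ?_⟩
    intro x y z hxy hxz h1 h2
    exact hf _ (adj_mem hE hxy).2 _ (adj_mem hE hxz).2
      (h _ _ _ (adj_map.2 ⟨_, _, hxy, rfl, rfl⟩) (adj_map.2 ⟨_, _, hxz, rfl, rfl⟩) h1 h2)

end Relabel

end Pool.Agent.X249.MC
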