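import Pool.Agent.X249.MC.Cut

/-!
# From 3SAT to nonconstant solutions of constraints `x = y ∨ x = z`, and to matching cuts
-/

set_option autoImplicit false

namespace Pool.Agent.X249.MC

open Pool.Agent.NPC Pool.Agent.NPC.H634R2

abbrev Cnf : Type := List (Lit ℕ × Lit ℕ × Lit ℕ)

/-- The variable of a literal. -/
def lit (l : Lit ℕ) : X := (if l.1 = true then 1 else 2, l.2)

/-- The variables. -/
def Ls (φ : Cnf) : List X :=
  (0, 0) :: (0, 1) :: ((vars3 φ).map (fun v : ℕ => ((1, v) : X)) ++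
    (vars3 φ).map (fun v : ℕ => ((2, v) : X)) ++
    (List.range φ.length).map (fun j : ℕ => ((3, j) : X)))

/-- The constraints. -/
def Cs (φ : Cnf) : List (X × X × X) :=
  (Ls φ).map (fun x : X => ((x, (0, 0), (0, 1)) : X × X × X)) ++
    (vars3 φ).map (fun v : ℕ => (((0, 0), (1, v), (2, v)) : X × X × X)) ++
    (vars3 φ).map (fun v : ℕ => (((0, 1), (1, v), (2, v)) : X × X × X)) ++
    φ.zipIdx.map (fun p : (Lit ℕ × Lit ℕ × Lit ℕ) × ℕ =>
      (((0, 0), lit p.1.1, (3, p.2)) : X × X × X)) ++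
    φ.zipIdx.map (fun p : (Lit ℕ × Lit ℕ × Lit ℕ) × ℕ =>
      (((3, p.2), lit p.1.2.1, lit p.1.2.2) : X × X × X))

theorem Cs_ne (φ : Cnf) : Cs φ ≠ [] := by
  unfold Cs Ls
  simp

theorem mem_Ls {φ : Cnf} {x : X} : x ∈ Ls φ ↔ x = (0, 0) ∨ x = (0, 1) ∨
    (∃ v ∈ vars3 φ, x = (1, v) ∨ x = (2, v)) ∨ ∃ j < φ.length, x = (3, j) := by
  unfold Ls
  simp only [List.mem_cons, List.mem_append, List.mem_map, List.mem_range]
  constructor
  · rintro (h | h | ((⟨v, h, rfl⟩ | ⟨v, h, rfl⟩) | ⟨j, h, rfl⟩))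
    · exact Or.inl h
    · exact Or.inr (Or.inl h)
    · exact Or.inr (Or.inr (Or.inl ⟨v, h, Or.inl rfl⟩))
    · exact Or.inr (Or.inr (Or.inl ⟨v, h, Or.inr rfl⟩))
    · exact Or.inr (Or.inr (Or.inr ⟨j, h, rfl⟩))
  · rintro (h | h | ⟨v, h, rfl | rfl⟩ | ⟨j, h, rfl⟩)
    · exact Or.inl h
    · exact Or.inr (Or.inl h)
    · exact Or.inr (Or.inr (Or.inl (Or.inl ⟨v, h, rfl⟩)))
    · exact Or.inr (Or.inr (Or.inl (Or.inr ⟨v, h, rfl⟩)))
    · exact Or.inr (Or.inr (Or.inr ⟨j, h, rfl⟩))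

theorem mem_Cs {φ : Cnf} {c : X × X × X} : c ∈ Cs φ ↔
    (∃ x ∈ Ls φ, c = (x, (0, 0), (0, 1))) ∨
    (∃ v ∈ vars3 φ, c = ((0, 0), (1, v), (2, v)) ∨ c = ((0, 1), (1, v), (2, v))) ∨
    ∃ d j, φ[j]? = some d ∧ (c = ((0, 0), lit d.1, (3, j)) ∨ c = ((3, j), lit d.2.1, lit d.2.2)) := by
  unfold Cs
  simp only [List.mem_append, List.mem_map, List.mem_zipIdx_iff_getElem?]
  constructor
  · rintro ((((⟨x, h, rfl⟩ | ⟨v, h, rfl⟩) | ⟨v, h, rfl⟩) | ⟨p, h, rfl⟩) | ⟨p, h, rfl⟩)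
    · exact Or.inl ⟨x, h, rfl⟩
    · exact Or.inr (Or.inl ⟨v, h, Or.inl rfl⟩)
    · exact Or.inr (Or.inl ⟨v, h, Or.inr rfl⟩)
    · exact Or.inr (Or.inr ⟨p.1, p.2, h, Or.inl rfl⟩)
    · exact Or.inr (Or.inr ⟨p.1, p.2, h, Or.inr rfl⟩)
  · rintro (⟨x, h, rfl⟩ | ⟨v, h, rfl | rfl⟩ | ⟨d, j, h, rfl | rfl⟩)
    · exact Or.inl (Or.inl (Or.inl (Or.inl ⟨x, h, rfl⟩)))
    · exact Or.inl (Or.inl (Or.inl (Or.inr ⟨v, h, rfl⟩)))
    · exact Or.inl (Or.inl (Or.inr ⟨v, h, rfl⟩))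
    · exact Or.inl (Or.inr ⟨(d, j), h, rfl⟩)
    · exact Or.inr ⟨(d, j), h, rfl⟩

theorem lit_mem {φ : Cnf} {l : Lit ℕ} (h : l.2 ∈ vars3 φ) : lit l ∈ Ls φ := by
  rw [mem_Ls]
  right; right; left
  refine ⟨l.2, h, ?_⟩
  unfold lit
  by_cases h1 : l.1 = true <;> simp [h1]

theorem Cs_sub (φ : Cnf) : ∀ c ∈ Cs φ, c.1 ∈ Ls φ ∧ c.2.1 ∈ Ls φ ∧ c.2.2 ∈ Ls φ := by
  intro c hc
  have h0 : ((0, 0) : X) ∈ Ls φ := mem_Ls.2 (Or.inl rfl)
  have h1 : ((0, 1) : X) ∈ Ls φ := mem_Ls.2 (Or.inr (Or.inl rfl))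
  rcases mem_Cs.1 hc with ⟨x, h, rfl⟩ | ⟨v, h, rfl | rfl⟩ | ⟨d, j, h, rfl | rfl⟩
  · exact ⟨h, h0, h1⟩
  · exact ⟨h0, mem_Ls.2 (Or.inr (Or.inr (Or.inl ⟨v, h, Or.inl rfl⟩))),
      mem_Ls.2 (Or.inr (Or.inr (Or.inl ⟨v, h, Or.inr rfl⟩)))⟩
  · exact ⟨h1, mem_Ls.2 (Or.inr (Or.inr (Or.inl ⟨v, h, Or.inl rfl⟩))),
      mem_Ls.2 (Or.inr (Or.inr (Or.inl ⟨v, h, Or.inr rfl⟩)))⟩
  · obtain ⟨h2, h3⟩ := List.getElem?_eq_some_iff.1 h
    have h4 : d ∈ φ := h3 ▸ List.getElem_mem h2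
    exact ⟨h0, lit_mem (mem_vars3 h4).1, mem_Ls.2 (Or.inr (Or.inr (Or.inr ⟨j, h2, rfl⟩)))⟩
  · obtain ⟨h2, h3⟩ := List.getElem?_eq_some_iff.1 h
    have h4 : d ∈ φ := h3 ▸ List.getElem_mem h2
    exact ⟨mem_Ls.2 (Or.inr (Or.inr (Or.inr ⟨j, h2, rfl⟩))), lit_mem (mem_vars3 h4).2.1,
      lit_mem (mem_vars3 h4).2.2⟩

/-- The solution of an assignment. -/
def asg (φ : Cnf) (τ : ℕ → Bool) (x : X) : Prop :=
  (x = (0, 0)) ∨ (x.1 = 1 ∧ τ x.2 = true) ∨ (x.1 = 2 ∧ τ x.2 = false) ∨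
    (x.1 = 3 ∧ ∃ c, φ[x.2]? = some c ∧ (τ c.1.2 = c.1.1 → τ c.2.1.2 = c.2.1.1))

theorem asg_lit {φ : Cnf} {τ : ℕ → Bool} {l : Lit ℕ} : asg φ τ (lit l) ↔ τ l.2 = l.1 := by
  obtain ⟨b, v⟩ := l
  unfold asg lit
  cases b <;> simp

theorem asg_w {φ : Cnf} {τ : ℕ → Bool} {j : ℕ} {c} (h : φ[j]? = some c) :
    asg φ τ (3, j) ↔ (τ c.1.2 = c.1.1 → τ c.2.1.2 = c.2.1.1) := by
  unfold asg
  simp [h]

theorem sat_iff (φ : Cnf) : SAT3 φ ↔ ∃ val : X → Prop, RSol (Ls φ) (Cs φ) val := by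
  constructor
  · rintro ⟨τ, hτ⟩
    have v0 : asg φ τ (0, 0) := Or.inl rfl
    have v1 : ¬ asg φ τ (0, 1) := by simp [asg]
    have p1 : ∀ v, asg φ τ (1, v) ↔ τ v = true := by intro v; simp [asg]
    have p2 : ∀ v, asg φ τ (2, v) ↔ τ v = false := by intro v; simp [asg]
    refine ⟨asg φ τ, ?_, ⟨(0, 0), mem_Ls.2 (Or.inl rfl), v0⟩,
      ⟨(0, 1), mem_Ls.2 (Or.inr (Or.inl rfl)), v1⟩⟩
    intro c hc
    rcases mem_Cs.1 hc with ⟨x, h, rfl⟩ | ⟨v, h, rfl | rfl⟩ | ⟨d, j, h, rfl | rfl⟩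
    · by_cases hx : asg φ τ x
      · exact Or.inl (iff_of_true hx v0)
      · exact Or.inr (iff_of_false hx v1)
    · simp only [v0, p1, p2, true_iff]
      cases τ v <;> simp
    · simp only [v1, p1, p2, false_iff]
      cases τ v <;> simp
    · simp only [v0, asg_lit, asg_w h, true_iff]
      tauto
    · obtain ⟨h2, h3⟩ := List.getElem?_eq_some_iff.1 h
      have h4 : d ∈ φ := h3 ▸ List.getElem_mem h2
      have h5 := hτ d h4
      simp only [asg_lit, asg_w h]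
      tauto
  · rintro ⟨val, hval, ⟨x, hx, hx'⟩, ⟨y, hy, hy'⟩⟩
    classical
    have hne : ¬ (val (0, 0) ↔ val (0, 1)) := by
      intro heq
      have key : ∀ z ∈ Ls φ, (val z ↔ val (0, 0)) := by
        intro z hz
        rcases hval _ (mem_Cs.2 (Or.inl ⟨z, hz, rfl⟩)) with h | h
        · exact h
        · exact h.trans heq.symm
      exact hy' ((key y hy).2 ((key x hx).1 hx'))
    have hv : ∀ v ∈ vars3 φ, (val (2, v) ↔ ¬ val (1, v)) := by
      intro v h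
      have h1 := hval _ (mem_Cs.2 (Or.inr (Or.inl ⟨v, h, Or.inl rfl⟩)))
      have h2 := hval _ (mem_Cs.2 (Or.inr (Or.inl ⟨v, h, Or.inr rfl⟩)))
      simp only at h1 h2
      tauto
    refine ⟨fun v => decide (val (1, v) ↔ val (0, 0)), ?_⟩
    have hl : ∀ l : Lit ℕ, l.2 ∈ vars3 φ → (val (lit l) ↔ val (0, 0)) →
        decide (val (1, l.2) ↔ val (0, 0)) = l.1 := by
      rintro ⟨b, v⟩ h h1
      have h2 := hv v h
      cases b
      · simp only [lit] at h1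
        simp only [Bool.false_eq_true, if_false] at h1
        simp only [decide_eq_false_iff_not]
        tauto
      · simp only [lit, if_true] at h1
        simp only [decide_eq_true_iff]
        exact h1
    intro c hc
    obtain ⟨j, hj, hjc⟩ := List.getElem_of_mem hc
    have hjc' : φ[j]? = some c := by rw [List.getElem?_eq_getElem hj, hjc]
    have h1 := hval _ (mem_Cs.2 (Or.inr (Or.inr ⟨c, j, hjc', Or.inl rfl⟩)))
    have h2 := hval _ (mem_Cs.2 (Or.inr (Or.inr ⟨c, j, hjc', Or.inr rfl⟩)))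
    simp only at h1 h2
    obtain ⟨m1, m2, m3⟩ := mem_vars3 hc
    rcases h1 with h1 | h1
    · exact Or.inl (hl _ m1 h1.symm)
    · rcases h2 with h2 | h2
      · exact Or.inr (Or.inl (hl _ m2 (h2.symm.trans h1.symm)))
      · exact Or.inr (Or.inr (hl _ m3 (h2.symm.trans h1.symm)))

/-- The vertices of the graph of a formula. -/
def Vs (φ : Cnf) : List W := Vl (Ls φ) (Cs φ).length

/-- The edges of the graph of a formula. -/
def Es (φ : Cnf) : List (W × W) := El (Ls φ) (Cs φ)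

/-- The reduction. -/
noncomputable def red (φ : Cnf) : List ℕ × List (ℕ × ℕ) :=
  ((Vs φ).map (index (Vs φ)), (Es φ).map (fun e => (index (Vs φ) e.1, index (Vs φ) e.2)))

theorem Vs_inj (φ : Cnf) : ∀ x ∈ Vs φ, ∀ y ∈ Vs φ, index (Vs φ) x = index (Vs φ) y → x = y :=
  fun _ hx _ hy h => index_inj hx hy h

theorem red_corr (φ : Cnf) : SAT3 φ ↔ MatchingCutSpiderFree (red φ) := by
  have hE := El_ends (Cs_sub φ)
  unfold MatchingCutSpiderFree red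
  simp only
  have h1 : IsGraph ((Vs φ).map (index (Vs φ)))
      ((Es φ).map (fun e => (index (Vs φ) e.1, index (Vs φ) e.2))) :=
    isGraph_map Vl_nodup (Vs_inj φ) hE El_nodup
  have h2 : ¬ Spider ((Es φ).map (fun e => (index (Vs φ) e.1, index (Vs φ) e.2))) :=
    fun h => El_no_spider (spider_map (Vs_inj φ) hE h)
  rw [and_iff_right h1, and_iff_right h2]
  refine Iff.trans ?_ (matchCut_map (Vs_inj φ) hE)
  rw [sat_iff]
  constructor
  · rintro ⟨val, h⟩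
    exact cut_of_rsol (Cs_ne φ) h
  · intro h
    exact rsol_of_cut (Cs_sub φ) h

section

variable {α : Type} [TEnc α]

@[fun_prop]
theorem poly_vars3 {φ : α → Cnf} (h : Poly φ) : Poly (fun a => vars3 (φ a)) := by
  unfold vars3
  fun_prop

@[fun_prop]
theorem poly_lit {l : α → Lit ℕ} (h : Poly l) : Poly (fun a => lit (l a)) := by
  unfold lit
  fun_prop

@[fun_prop]
theorem poly_Ls {φ : α → Cnf} (h : Poly φ) : Poly (fun a => Ls (φ a)) := by
  have key : ∀ {r : α → List ℕ}, Poly r → Poly (fun a => (0, 0) :: (0, 1) ::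
      ((vars3 (φ a)).map (fun v : ℕ => ((1, v) : X)) ++
        (vars3 (φ a)).map (fun v : ℕ => ((2, v) : X)) ++
        (r a).map (fun j : ℕ => ((3, j) : X)))) := by
    intro r hr
    fun_prop
  exact key (UPoly.range (UPoly.length h))

@[fun_prop]
theorem poly_Cs {φ : α → Cnf} (h : Poly φ) : Poly (fun a => Cs (φ a)) := by
  unfold Cs
  fun_prop

theorem poly_Vl {L : α → List X} {m : α → ℕ} (hL : Poly L) (hm : UPoly m) :
    Poly (fun a => Vl (L a) (m a)) := by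
  have key : ∀ {r1 r2 r3 : α → List ℕ}, Poly r1 → Poly r2 → Poly r3 → Poly (fun a =>
      ((L a ×ˢ r1 a).map (fun p : X × ℕ => ((p.1, p.2, 0) : W)) ++
        (L a ×ˢ r2 a).map (fun p : X × ℕ => ((p.1, p.2, 1) : W)) ++
        (r3 a).map (fun i => (((0, 0), i, 2) : W)) ++
        (r3 a).map (fun i => (((0, 0), i, 3) : W))).dedup) := by
    intro r1 r2 r3 h1 h2 h3
    fun_prop
  have h3 : UPoly (fun a => 3 * m a) := UPoly.mul (UPoly.const 3) hm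
  have h4 : UPoly (fun a => 3 * m a - 1) :=
    UPoly.of_le (NPC.Poly.sub h3.toPoly (NPC.Poly.const 1)) h3 (fun a => Nat.sub_le _ _)
  exact key (UPoly.range h3) (UPoly.range h4) (UPoly.range hm)

@[fun_prop]
theorem poly_El {L : α → List X} {C : α → List (X × X × X)} (hL : Poly L) (hC : Poly C) :
    Poly (fun a => El (L a) (C a)) := by
  have key : ∀ {r : α → List ℕ}, Poly r → Poly (fun a =>
      ((L a ×ˢ r a).map (fun p : X × ℕ => (((p.1, p.2, 0), (p.1, p.2 + 1, 0)) : W × W)) ++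
        (L a ×ˢ r a).map (fun p : X × ℕ => (((p.1, p.2, 1), (p.1, p.2, 0)) : W × W)) ++
        (L a ×ˢ r a).map (fun p : X × ℕ => (((p.1, p.2, 1), (p.1, p.2 + 1, 0)) : W × W)) ++
        (C a).zipIdx.map (fun p : (X × X × X) × ℕ =>
          ((((0, 0), p.2, 2), (p.1.1, 3 * p.2, 0)) : W × W)) ++
        (C a).zipIdx.map (fun p : (X × X × X) × ℕ =>
          ((((0, 0), p.2, 2), (p.1.2.1, 3 * p.2 + 1, 0)) : W × W)) ++
        (C a).zipIdx.map (fun p : (X × X × X) × ℕ =>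
          ((((0, 0), p.2, 2), (p.1.2.2, 3 * p.2 + 2, 0)) : W × W)) ++
        (C a).zipIdx.map (fun p : (X × X × X) × ℕ =>
          ((((0, 0), p.2, 3), (p.1.1, 3 * p.2, 0)) : W × W)) ++
        (C a).zipIdx.map (fun p : (X × X × X) × ℕ =>
          ((((0, 0), p.2, 3), ((0, 0), p.2, 2)) : W × W))).dedup) := by
    intro r hr
    fun_prop
  have h3 : UPoly (fun a => 3 * (C a).length) := UPoly.mul (UPoly.const 3) (UPoly.length hC)
  have h4 : UPoly (fun a => 3 * (C a).length - 1) :=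
    UPoly.of_le (NPC.Poly.sub h3.toPoly (NPC.Poly.const 1)) h3 (fun a => Nat.sub_le _ _)
  exact key (UPoly.range h4)

@[fun_prop]
theorem poly_Vs {φ : α → Cnf} (h : Poly φ) : Poly (fun a => Vs (φ a)) := by
  unfold Vs
  exact poly_Vl (poly_Ls h) (UPoly.length (poly_Cs h))

@[fun_prop]
theorem poly_Es {φ : α → Cnf} (h : Poly φ) : Poly (fun a => Es (φ a)) := by
  unfold Es
  fun_prop

end

theorem poly_red : Poly red := by
  unfold red
  fun_prop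

theorem hard : HardI MatchingCutSpiderFree := hardI_SAT3.trans poly_red red_corr

end Pool.Agent.X249.MC
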